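import Mathlib
import Pool.Agent.Helper976.KSMono
import Pool.Agent.Helper976.KSSmall

namespace Pool.Agent.Results.MP_2baa92_co.LargeModulus

open Pool.Agent.Helper976.KS

/-- The Kézdy–Snevily monotonicity `N(n, k) ≤ N(n, k + 1)` for all positive `n, k` with `k < n - 1`
such that `k ≤ 3` or `n > k (k + 1)`. -/
theorem result :
    ∀ n k : ℕ, 1 ≤ k → k + 1 < n → (k ≤ 3 ∨ k * (k + 1) < n) → N n k ≤ N n (k + 1) := by
  intro n k hk hn h
  rcases h with h | h
  · interval_cases k
    · exact mono_large (by omega)
    · exact mono_two (by omega)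
    · exact mono_three (by omega)
  · exact mono_large h

end Pool.Agent.Results.MP_2baa92_co.LargeModulus
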